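import Pool.Agent.Run7.h19.HP.Iface

/-!
# Piece N2 of project HP (MP_5499ac_co)
-/

set_option autoImplicit false

namespace Run7.h862.HP

open Run7.h19.HP

theorem prod_Ico_le {a n m : ℕ} (hm : m ≤ n) (ham : a ≤ m) :
    ∏ e ∈ Finset.Ico a n, (1 - (1 / 2 : ℝ) ^ e) ≤
      ∏ e ∈ Finset.Ico a m, (1 - (1 / 2 : ℝ) ^ e) := by
  have h0 : ∀ e : ℕ, (0 : ℝ) ≤ 1 - (1 / 2 : ℝ) ^ e := by
    intro e
    have : (1 / 2 : ℝ) ^ e ≤ 1 := pow_le_one₀ (by norm_num) (by norm_num)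
    linarith
  have h1 : ∀ e : ℕ, 1 - (1 / 2 : ℝ) ^ e ≤ 1 := by
    intro e
    have : (0 : ℝ) ≤ (1 / 2 : ℝ) ^ e := by positivity
    linarith
  rw [← Finset.prod_Ico_consecutive _ ham hm]
  calc _ ≤ (∏ e ∈ Finset.Ico a m, (1 - (1 / 2 : ℝ) ^ e)) * 1 :=
        mul_le_mul_of_nonneg_left (Finset.prod_le_one (fun e _ => h0 e) (fun e _ => h1 e))
          (Finset.prod_nonneg (fun e _ => h0 e))
    _ = _ := mul_one _

/-- [N2] -/
theorem t_N2 (hB : S_BETA) (h0 : S_N0) : S_N2 := by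
  intro k τ hk hτ1 hτ2
  have h1 := hB k (τ + 2) (by omega) (by omega)
  have h2 := h0 k τ hk (by omega) (by omega)
  have h3 : τ + 2 - 2 = τ := by omega
  rw [h3] at h1
  set a := k - (τ + 2) + 1 with ha
  have ha6 : a ≤ 6 := by omega
  have h4 : ∏ e ∈ Finset.Ico a (k - 1), (1 - (1 / 2 : ℝ) ^ e) ≤ 63 / 64 := by
    refine (prod_Ico_le (m := a + 1) (by omega) (by omega)).trans ?_
    rw [Nat.Ico_succ_singleton, Finset.prod_singleton]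
    have : (1 / 2 : ℝ) ^ 6 ≤ (1 / 2 : ℝ) ^ a :=
      pow_le_pow_of_le_one (by norm_num) (by norm_num) ha6
    norm_num at this ⊢
    linarith
  set A : ℕ := (2 ^ k - 1) ^ τ * bb k (τ + 2) with hA
  set B : ℕ := 2 ^ (41 * k) * bb k τ with hBd
  have h5 : (A : ℝ) ≤ (bb k 2 : ℝ) * (1 / 2) ^ τ * (63 / 64) :=
    h1.trans (mul_le_mul_of_nonneg_left h4 (by positivity))
  have h6 : (B : ℝ) * 2 ^ 20 ≤ (bb k 2 : ℝ) := by exact_mod_cast h2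
  have h7 : (2 ^ τ - 1 : ℕ) ≤ 2 ^ τ := Nat.sub_le _ _
  have h8 : ((2 ^ τ - 1 : ℕ) : ℝ) ≤ 2 ^ τ := by exact_mod_cast h7
  have h9 : (2 : ℝ) ^ τ * (1 / 2) ^ τ = 1 := by
    rw [← mul_pow]
    norm_num
  have h11 : ((2 ^ τ - 1 : ℕ) : ℝ) * A ≤ (bb k 2 : ℝ) * (63 / 64) := by
    calc ((2 ^ τ - 1 : ℕ) : ℝ) * A ≤ 2 ^ τ * ((bb k 2 : ℝ) * (1 / 2) ^ τ * (63 / 64)) :=
          mul_le_mul h8 h5 (by positivity) (by positivity)
      _ = (bb k 2 : ℝ) * (63 / 64) := by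
          linear_combination (bb k 2 : ℝ) * (63 / 64) * h9
  have hb : (0 : ℝ) ≤ (bb k 2 : ℝ) := by positivity
  have h12 : ((2 ^ τ - 1 : ℕ) : ℝ) * A + B ≤ bb k 2 := by
    have : (B : ℝ) ≤ (bb k 2 : ℝ) / 2 ^ 20 := by
      rw [le_div_iff₀ (by positivity)]
      exact h6
    have h13 : (bb k 2 : ℝ) / 2 ^ 20 ≤ (bb k 2 : ℝ) / 64 := by
      apply div_le_div_of_nonneg_left hb (by norm_num) (by norm_num)
    linarith
  exact_mod_cast h12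

end Run7.h862.HP
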