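import Pool.Agent.Run7.h19.HP.Iface

/-!
# Piece N3 of project HP (MP_5499ac_co)
-/

set_option autoImplicit false

namespace Run7.h862.HP

open Run7.h19.HP

theorem prod_le {n : ℕ} (hn : 3 ≤ n) :
    ∏ e ∈ Finset.Ico 1 n, (1 - (1 / 2 : ℝ) ^ e) ≤ 3 / 8 := by
  induction n, hn using Nat.le_induction with
  | base =>
    rw [Finset.prod_Ico_succ_top (by norm_num), Finset.prod_Ico_succ_top (by norm_num)]
    norm_num
  | succ n hn ih =>
    rw [Finset.prod_Ico_succ_top (by omega)]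
    have h1 : (0 : ℝ) ≤ (1 / 2 : ℝ) ^ n := by positivity
    have h2 : (1 / 2 : ℝ) ^ n ≤ 1 := pow_le_one₀ (by norm_num) (by norm_num)
    have h3 : (0 : ℝ) ≤ ∏ e ∈ Finset.Ico 1 n, (1 - (1 / 2 : ℝ) ^ e) := by
      apply Finset.prod_nonneg
      intro e _
      have : (1 / 2 : ℝ) ^ e ≤ 1 := pow_le_one₀ (by norm_num) (by norm_num)
      linarith
    nlinarith

/-- [N3] -/
theorem t_N3 (hB : S_BETA) (h0 : S_N0) : S_N3 := by
  intro k τ hk hτ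
  have h1 := hB k k (by omega) le_rfl
  have h2 := h0 k τ hk (by omega) (by omega)
  have h3 : k - k + 1 = 1 := by omega
  rw [h3] at h1
  have h4 : ∏ e ∈ Finset.Ico 1 (k - 1), (1 - (1 / 2 : ℝ) ^ e) ≤ 3 / 8 := prod_le (by omega)
  set A : ℕ := (2 ^ k - 1) ^ (k - 2) * bb k k with hA
  set B : ℕ := 2 ^ (41 * k) * bb k τ with hBd
  have h5 : (A : ℝ) ≤ (bb k 2 : ℝ) * (1 / 2) ^ (k - 2) * (3 / 8) :=
    h1.trans (mul_le_mul_of_nonneg_left h4 (by positivity))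
  have h6 : (B : ℝ) * 2 ^ 20 ≤ (bb k 2 : ℝ) := by exact_mod_cast h2
  have h7 : (2 ^ τ - 1 : ℕ) ≤ 2 ^ (k - 1) := by
    have : τ = k - 1 := by omega
    rw [this]
    exact Nat.sub_le _ _
  have h8 : ((2 ^ τ - 1 : ℕ) : ℝ) ≤ 2 ^ (k - 1) := by exact_mod_cast h7
  have h9 : (2 : ℝ) ^ (k - 1) * (1 / 2) ^ (k - 2) = 2 := by
    have : k - 1 = (k - 2) + 1 := by omega
    rw [this, pow_succ]
    have h10 : (2 : ℝ) ^ (k - 2) * (1 / 2) ^ (k - 2) = 1 := by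
      rw [← mul_pow]
      norm_num
    linear_combination 2 * h10
  have h11 : ((2 ^ τ - 1 : ℕ) : ℝ) * A ≤ (bb k 2 : ℝ) * (3 / 4) := by
    calc ((2 ^ τ - 1 : ℕ) : ℝ) * A ≤ 2 ^ (k - 1) * ((bb k 2 : ℝ) * (1 / 2) ^ (k - 2) * (3 / 8)) :=
          mul_le_mul h8 h5 (by positivity) (by positivity)
      _ = (bb k 2 : ℝ) * (3 / 4) := by
          linear_combination (bb k 2 : ℝ) * (3 / 8) * h9
  have hb : (0 : ℝ) ≤ (bb k 2 : ℝ) := by positivity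
  have h12 : ((2 ^ τ - 1 : ℕ) : ℝ) * A + B ≤ bb k 2 := by
    have : (B : ℝ) ≤ (bb k 2 : ℝ) / 2 ^ 20 := by
      rw [le_div_iff₀ (by positivity)]
      exact h6
    have h13 : (bb k 2 : ℝ) / 2 ^ 20 ≤ (bb k 2 : ℝ) / 4 := by
      apply div_le_div_of_nonneg_left hb (by norm_num) (by norm_num)
    linarith
  exact_mod_cast h12

end Run7.h862.HP
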