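import Pool.Agent.Run7.h862.HP.N2

/-!
# Piece N6 of project HP (MP_5499ac_co)
-/

set_option autoImplicit false

namespace Run7.h862.HP

open Run7.h19.HP Pool.Agent.H99.SubDeg

/-- `bb k (k - 2)` is about `32 * 4 ^ k / 3` -/
theorem bb_sub_two (k : ℕ) (hk : 200 ≤ k) :
    32 * (4 : ℝ) ^ k * (1 - 1 / 1000) ≤ 3 * (bb k (k - 2) : ℝ) := by
  have h1 : bb k (k - 2) = ((2 ^ (k + 3) - 1) * (2 ^ (k + 2) - 1)) / 3 := by
    have e1 : 2 * k + 1 - (k - 2) = k + 3 := by omega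
    have e2 : k - (k - 2) = 2 := by omega
    unfold bb gb
    rw [e1, e2, Finset.prod_range_succ, Finset.prod_range_one, Finset.prod_range_succ,
      Finset.prod_range_one]
    norm_num
  set X : ℕ := (2 ^ (k + 3) - 1) * (2 ^ (k + 2) - 1) with hX
  have h2 : X ≤ 3 * bb k (k - 2) + 2 := by
    rw [h1]
    omega
  have h3 : (X : ℝ) = (2 ^ (k + 3) - 1) * (2 ^ (k + 2) - 1) := by
    rw [hX]
    push_cast [Nat.one_le_two_pow]
    ring
  have h4 : (X : ℝ) ≤ 3 * (bb k (k - 2) : ℝ) + 2 := by exact_mod_cast h2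
  have h5 : (4 : ℝ) ^ k = 2 ^ k * 2 ^ k := by
    rw [← mul_pow]
    norm_num
  have h6 : (2 : ℝ) ^ 200 ≤ 2 ^ k := pow_le_pow_right₀ (by norm_num) hk
  have h7 : (1000000 : ℝ) ≤ 2 ^ k := le_trans (by norm_num) h6
  rw [h5]
  rw [h3, pow_add, pow_add] at h4
  nlinarith

theorem prod36 : ∏ e ∈ Finset.Ico 3 7, (1 - (1 / 2 : ℝ) ^ e) ≤ 7823 / 10000 := by
  rw [Finset.prod_Ico_succ_top (by norm_num), Finset.prod_Ico_succ_top (by norm_num),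
    Finset.prod_Ico_succ_top (by norm_num), Finset.prod_Ico_succ_top (by norm_num)]
  norm_num

/-- [N6] -/
theorem t_N6 (hB : S_BETA) : S_N6 := by
  intro k hk
  have h1 := hB k (k - 2) (by omega) (by omega)
  have e1 : k - 2 - 2 = k - 4 := by omega
  have e2 : k - (k - 2) + 1 = 3 := by omega
  rw [e1, e2] at h1
  have h4 : ∏ e ∈ Finset.Ico 3 (k - 1), (1 - (1 / 2 : ℝ) ^ e) ≤ 7823 / 10000 :=
    (prod_Ico_le (m := 7) (by omega) (by omega)).trans prod36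
  have h5 : (((2 ^ k - 1) ^ (k - 4) * bb k (k - 2) : ℕ) : ℝ) ≤
      (bb k 2 : ℝ) * (1 / 2) ^ (k - 4) * (7823 / 10000) :=
    h1.trans (mul_le_mul_of_nonneg_left h4 (by positivity))
  have h6 := bb_sub_two k hk
  set P : ℕ := (2 ^ k - 1) ^ (k - 4) with hP
  rw [Nat.cast_mul] at h5
  have h7 : ((2 ^ k - 1 : ℕ) : ℝ) ≤ 2 ^ k := by exact_mod_cast Nat.sub_le _ _
  have h9 : (2 : ℝ) ^ k * (1 / 2) ^ (k - 4) = 16 := by
    have : k = (k - 4) + 4 := by omega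
    have h10 : (2 : ℝ) ^ (k - 4) * (1 / 2) ^ (k - 4) = 1 := by
      rw [← mul_pow]
      norm_num
    calc (2 : ℝ) ^ k * (1 / 2) ^ (k - 4) = 2 ^ ((k - 4) + 4) * (1 / 2) ^ (k - 4) := by
          rw [← this]
      _ = 16 := by
          rw [pow_add]
          linear_combination 16 * h10
  have hP0 : (0 : ℝ) ≤ (P : ℝ) := by positivity
  have hb : (0 : ℝ) ≤ (bb k 2 : ℝ) := by positivity
  -- P * 4 ^ k
  have h11 : (P : ℝ) * (32 * 4 ^ k * (1 - 1 / 1000)) ≤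
      3 * ((bb k 2 : ℝ) * (1 / 2) ^ (k - 4) * (7823 / 10000)) := by
    calc (P : ℝ) * (32 * 4 ^ k * (1 - 1 / 1000)) ≤ P * (3 * (bb k (k - 2) : ℝ)) :=
          mul_le_mul_of_nonneg_left h6 hP0
      _ = 3 * (P * (bb k (k - 2) : ℝ)) := by ring
      _ ≤ _ := by linarith
  have h12 : (2 : ℝ) ^ k * ((P : ℝ) * (32 * 4 ^ k * (1 - 1 / 1000))) ≤
      3 * ((bb k 2 : ℝ) * 16 * (7823 / 10000)) := by
    calc (2 : ℝ) ^ k * ((P : ℝ) * (32 * 4 ^ k * (1 - 1 / 1000))) ≤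
          2 ^ k * (3 * ((bb k 2 : ℝ) * (1 / 2) ^ (k - 4) * (7823 / 10000))) :=
          mul_le_mul_of_nonneg_left h11 (by positivity)
      _ = 3 * ((bb k 2 : ℝ) * 16 * (7823 / 10000)) := by
          linear_combination 3 * (bb k 2 : ℝ) * (7823 / 10000) * h9
  have h13 : ((2 ^ k - 1 : ℕ) : ℝ) * P * (13 * 4 ^ k) ≤ 16 * (bb k 2 : ℝ) := by
    have h14 : ((2 ^ k - 1 : ℕ) : ℝ) * ((P : ℝ) * (4 : ℝ) ^ k) ≤
        2 ^ k * ((P : ℝ) * (4 : ℝ) ^ k) :=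
      mul_le_mul_of_nonneg_right h7 (by positivity)
    have h15 : (2 : ℝ) ^ k * ((P : ℝ) * (4 : ℝ) ^ k) * (32 * (1 - 1 / 1000)) ≤
        3 * ((bb k 2 : ℝ) * 16 * (7823 / 10000)) := by
      calc _ = (2 : ℝ) ^ k * ((P : ℝ) * (32 * 4 ^ k * (1 - 1 / 1000))) := by ring
        _ ≤ _ := h12
    nlinarith
  have h16 : (((2 ^ k - 1) * P * (13 * 4 ^ k) : ℕ) : ℝ) ≤ ((16 * bb k 2 : ℕ) : ℝ) := by
    rw [Nat.cast_mul, Nat.cast_mul, Nat.cast_mul (13), Nat.cast_mul 16]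
    push_cast [Nat.one_le_two_pow] at h13 ⊢
    exact h13
  exact_mod_cast h16

end Run7.h862.HP
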