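import Pool.Agent.Run7.h862.HP.C

/-!
# Piece ALL of project HP (MP_5499ac_co)
-/

set_option autoImplicit false

namespace Run7.h862.HP

open Module Submodule Finset Run7.h19.HP Pool.Agent.H99.SubDeg

/-- [ALL] -/
theorem t_ALL (hB : S_B) (hC : S_C) : S_ALL := by
  classical
  intro K _ _ V _ _ _ k F hq2 hn2 hk hF
  obtain ⟨G, hFG, hG⟩ := Finite.exists_le_maximal hF
  have hsub : high k F ⊆ high k G := by
    intro P hP
    simp only [high, Finset.mem_filter, Finset.mem_univ, true_and] at hP ⊢
    refine ⟨hP.1, hP.2.trans_le ?_⟩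
    exact Finset.card_le_card (Finset.filter_subset_filter _ hFG)
  refine (Finset.card_le_card hsub).trans ?_
  rcases G.eq_empty_or_nonempty with hGe | ⟨A0, hA0⟩
  · have : high k G = ∅ := by
      rw [Finset.eq_empty_iff_forall_notMem]
      intro P hP
      simp [high, deg, hGe] at hP
    rw [this, Finset.card_empty]
    exact Nat.zero_le _
  have hGk := hG.1.1
  have hint := hG.1.2
  have hex : ∃ s : ℕ, ∃ S : Submodule K V, finrank K S = s ∧ Transv G S :=
    ⟨k, A0, hGk A0 hA0, fun A hA => hint A hA A0 hA0⟩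
  obtain ⟨T, hT, hTt⟩ := Nat.find_spec hex
  set τ := Nat.find hex with hτ
  have hmin : ∀ S : Submodule K V, finrank K S < τ → ¬ Transv G S := by
    intro S hS hSt
    exact Nat.find_min hex hS ⟨S, rfl, hSt⟩
  have hτk : τ ≤ k := Nat.find_le ⟨A0, hGk A0 hA0, fun A hA => hint A hA A0 hA0⟩
  have hτ0 : τ ≠ 0 := by
    intro h0
    rw [h0, Submodule.finrank_eq_zero] at hT
    exact hTt A0 hA0 (by rw [hT, inf_bot_eq])
  rcases Nat.lt_or_ge τ 2 with hτ2 | hτ2
  · -- a common point
    have hT1 : finrank K T = 1 := by omega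
    have hsubT : high k G ⊆ pts T := by
      intro P hP
      have hP' : finrank K P = 1 ∧ gb (Nat.card K) (finrank K V - 2) (k - 2) < deg G P := by
        simpa [high] using hP
      simp only [pts, Finset.mem_filter, Finset.mem_univ, true_and]
      refine ⟨hP'.1, ?_⟩
      by_contra hPT
      have h1 := branching G P T hTt (gb (Nat.card K) (finrank K V - 2) (k - 2)) (by
        intro Q hQ
        simp only [pts, Finset.mem_filter, Finset.mem_univ, true_and] at hQ
        have hL : finrank K (P ⊔ Q : Submodule K V) = 2 := by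
          rw [finrank_sup_point P Q hQ.1, hP'.1]
          intro h
          exact hPT (point_eq hQ.1 hP'.1 h ▸ hQ.2)
        have := deg_le G k hGk (P ⊔ Q) (by omega) (by omega)
        rwa [hL] at this)
      have h2 : (pts T).card = 1 := by
        rw [pts_card_two hq2, hT1]
        norm_num
      rw [h2, one_mul] at h1
      exact absurd hP'.2 (not_lt.2 h1)
    refine (Finset.card_le_card hsubT).trans ?_
    rw [pts_card_two hq2, hT1]
    exact Nat.sub_le_sub_right (Nat.pow_le_pow_right (by norm_num) (by omega)) 1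
  · have hcfg : Cfg k τ G T := ⟨hq2, hn2, hG, hT, hTt, hmin, hτ2, hτk, hk⟩
    rcases Nat.lt_or_ge k (τ + 8) with h8 | h8
    · exact hC K V k τ G T hcfg h8
    · obtain ⟨W, hW, hW2⟩ := hB K V k τ G T hcfg h8
      refine (Finset.card_le_card hW2).trans ?_
      rw [pts_card_two hq2]
      exact Nat.sub_le_sub_right (Nat.pow_le_pow_right (by norm_num) hW) 1

end Run7.h862.HP
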