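import Pool.Agent.Run7.h19.HP.Iface

/-!
# Piece C of project HP (MP_5499ac_co)
-/

set_option autoImplicit false

namespace Run7.h862.HP

open Module Submodule Finset Run7.h19.HP Pool.Agent.H99.SubDeg

section
variable {K : Type} [Field K] [Finite K] {V : Type} [AddCommGroup V] [Module K V] [Finite V]

theorem pts_card_two (hq : Nat.card K = 2) (W : Submodule K V) :
    (pts W).card = 2 ^ finrank K W - 1 := by
  have h1 := pts_card W
  rw [hq] at h1
  simpa using h1

theorem mem_TT {F : Finset (Submodule K V)} {j : ℕ} {S : Submodule K V} :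
    S ∈ TT F j ↔ finrank K S = j ∧ Transv F S := by
  simp [TT]

theorem mem_Tlt {F : Finset (Submodule K V)} {j : ℕ} {S : Submodule K V} :
    S ∈ Tlt F j ↔ finrank K S < j ∧ Transv F S := by
  simp [Tlt]

open scoped Classical in
theorem exists_out {k τ : ℕ} {F : Finset (Submodule K V)} {T : Submodule K V}
    (h : Cfg k τ F T) (hc : 2 ^ (k + 1) - 1 < (high k F).card) (T' : Submodule K V)
    (hT' : finrank K T' ≤ k) : ∃ P, HighOut k F T P ∧ ¬ P ≤ T' := by
  by_contra hno
  push Not at hno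
  have hsub : high k F ⊆ pts T ∪ pts T' := by
    intro P hP
    have h1 : finrank K P = 1 ∧ gb (Nat.card K) (finrank K V - 2) (k - 2) < deg F P := by
      simpa [high] using hP
    rw [Finset.mem_union]
    by_cases hPT : P ≤ T
    · left
      simp only [pts, Finset.mem_filter, Finset.mem_univ, true_and]
      exact ⟨h1.1, hPT⟩
    · right
      simp only [pts, Finset.mem_filter, Finset.mem_univ, true_and]
      refine ⟨h1.1, hno P ⟨h1.1, ?_, hPT⟩⟩
      have h2 := h1.2
      rw [h.hq, h.hn] at h2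
      exact h2
  have h1 := (Finset.card_le_card hsub).trans (Finset.card_union_le _ _)
  rw [pts_card_two h.hq, pts_card_two h.hq, h.hT] at h1
  have h2 : 2 ^ τ ≤ 2 ^ k := Nat.pow_le_pow_right (by norm_num) h.hτk
  have h3 : 2 ^ finrank K T' ≤ 2 ^ k := Nat.pow_le_pow_right (by norm_num) hT'
  have h4 : 2 ^ (k + 1) = 2 * 2 ^ k := by ring
  omega

end

theorem pow40 (k : ℕ) (hk : 200 ≤ k) : 2 * 2 ^ (40 * k) ≤ 2 ^ (41 * k) := by
  calc 2 * 2 ^ (40 * k) = 2 ^ (40 * k + 1) := by ring
    _ ≤ 2 ^ (41 * k) := Nat.pow_le_pow_right (by norm_num) (by omega)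

/-- [C] -/
theorem t_C (hNEAR : S_NEAR) (hST1 : S_STEP1) (hST2 : S_STEP2) (hF2 : S_FIN2) (hF1 : S_FIN1)
    (hF0 : S_FIN0) : S_C := by
  classical
  intro K _ _ V _ _ _ k τ F T h hkτ
  by_contra hcon
  push Not at hcon
  have hex := exists_out h hcon
  obtain ⟨P0, hP0, -⟩ := hex T (by rw [h.hT]; exact h.hτk)
  have hk := h.hk
  have hτk := h.hτk
  -- `NEAR` for the transversals
  have near : ∀ j : ℕ, j ≤ τ + 1 →
      (∀ T' ∈ TT F j, τ ≤ finrank K (T' ⊓ T : Submodule K V) + 10) →
      (TT F j).card ≤ 2 ^ (40 * k) := by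
    intro j hj hT'
    refine le_trans (Finset.card_le_card ?_) (hNEAR K V k τ j T h.hq h.hn h.hk h.hT h.hτk hkτ hj)
    intro S hS
    rw [Finset.mem_filter]
    exact ⟨Finset.mem_univ _, (mem_TT.1 hS).1, hT' S hS⟩
  have hge : ∀ S : Submodule K V, Transv F S → τ ≤ finrank K S := by
    intro S hS
    by_contra hlt
    exact h.hmin S (by omega) hS
  have hlt1 : Tlt F (τ + 1) ⊆ TT F τ := by
    intro S hS
    have h1 := mem_Tlt.1 hS
    have h2 := hge S h1.2
    exact mem_TT.2 ⟨by omega, h1.2⟩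
  have h40 := pow40 k hk
  rcases Nat.lt_trichotomy (τ + 1) k with h1 | h1 | h1
  · have h0 : (Tlt F τ).card ≤ 2 ^ (41 * k) := by
      have : Tlt F τ = ∅ := by
        rw [Finset.eq_empty_iff_forall_notMem]
        intro S hS
        exact h.hmin S (mem_Tlt.1 hS).1 (mem_Tlt.1 hS).2
      rw [this, Finset.card_empty]
      exact Nat.zero_le _
    have hA : (TT F τ).card ≤ 2 ^ (40 * k) := by
      apply near τ (by omega)
      intro T' hT'
      obtain ⟨P, hP, hPT'⟩ := hex T' (by rw [(mem_TT.1 hT').1]; exact hτk)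
      exact hST1 K V k τ F T h hkτ (by omega) τ (Or.inl rfl) h0 P hP T' hT' hPT'
    have hlt1c : (Tlt F (τ + 1)).card ≤ 2 ^ (41 * k) := by
      have := Finset.card_le_card hlt1
      omega
    have hB : (TT F (τ + 1)).card ≤ 2 ^ (40 * k) := by
      apply near (τ + 1) le_rfl
      intro T' hT'
      obtain ⟨P, hP, hPT'⟩ := hex T' (by rw [(mem_TT.1 hT').1]; omega)
      exact hST1 K V k τ F T h hkτ (by omega) (τ + 1) (Or.inr rfl) hlt1c P hP T' hT' hPT'
    have hC : (Tlt F (τ + 2)).card ≤ 2 ^ (41 * k) := by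
      have hs : Tlt F (τ + 2) ⊆ TT F τ ∪ TT F (τ + 1) := by
        intro S hS
        have h1 := mem_Tlt.1 hS
        have h2 := hge S h1.2
        rw [Finset.mem_union]
        by_cases h3 : finrank K S = τ
        · exact Or.inl (mem_TT.2 ⟨h3, h1.2⟩)
        · exact Or.inr (mem_TT.2 ⟨by omega, h1.2⟩)
      have := (Finset.card_le_card hs).trans (Finset.card_union_le _ _)
      omega
    exact hF2 K V k τ F T h hkτ (by omega) hC P0 hP0
  · have hA : (TT F τ).card ≤ 2 ^ (40 * k) := by
      apply near τ (by omega)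
      intro T' hT'
      obtain ⟨P, hP, hPT'⟩ := hex T' (by rw [(mem_TT.1 hT').1]; exact hτk)
      exact hST2 K V k τ F T h h1 P hP T' hT' hPT'
    have hB : (Tlt F k).card ≤ 2 ^ (41 * k) := by
      have h2 := Finset.card_le_card hlt1
      have h3 : (Tlt F k).card ≤ (TT F τ).card := by
        rw [← h1]
        exact h2
      omega
    exact hF1 K V k τ F T h h1 hB P0 hP0
  · exact hF0 K V k τ F T h (by omega) P0 hP0

end Run7.h862.HP
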